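import Pool.Agent.helper83.GR.Spec
import Pool.Agent.helper50.DD.CPL

set_option autoImplicit false

namespace Pool.Agent.GR

open Pool.Agent.helper58.DC Pool.Agent.DI

theorem EXP (hB2 : B2_stmt) : EXP_stmt := by
  classical
  intro G _ _ H z hz hcc
  obtain ⟨hz1, hz2⟩ := hz
  let _ : Fintype G := Fintype.ofFinite G
  let _ : Fintype H := Fintype.ofFinite H
  have key : (fun h : H => z ((h⁻¹ : H) : G)) = 0 := by
    apply Pool.Agent.DD.CPL H
    · intro g h
      have h1 : (((h * g * h⁻¹)⁻¹ : H) : G) = (h : G) * ((g⁻¹ : H) : G) * (h : G)⁻¹ := by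
        rw [← Subgroup.coe_inv, ← Subgroup.coe_mul, ← Subgroup.coe_mul]
        congr 1
        group
      show z (((h * g * h⁻¹)⁻¹ : H) : G) = z ((g⁻¹ : H) : G)
      rw [h1]
      exact hz1 _ h.2 _
    · intro χ hχ
      let ψ : G → ℂ := fun g => if hg : g ∈ H then χ ⟨g, hg⟩ else 0
      have hψH : ∀ h : H, ψ (h : G) = χ h := fun h => dif_pos h.2
      have hψ : ψ ∈ IrrOn H := by
        refine ⟨fun g hg => dif_neg hg, ?_⟩
        have h2 : (fun h : H => ψ (h : G)) = χ := funext hψH
        rw [h2]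
        exact hχ
      obtain ⟨⟨n, hn, hn1, -⟩, -⟩ := (hB2 G H).2 ψ hψ
      have h3 := hcc ψ hψ
      rw [cc, hn1, div_eq_zero_iff] at h3
      have h4 : ∑ᶠ x, z x * ψ x = 0 := by
        rcases h3 with h3 | h3
        · exact h3
        · exact absurd (Nat.cast_eq_zero.mp h3) hn.ne'
      rw [finsum_eq_sum_of_fintype] at h4
      have h5 : ∑ h : H, z ((h⁻¹ : H) : G) * χ h⁻¹ = ∑ h : H, z (h : G) * χ h :=
        Equiv.sum_comp (Equiv.inv H) (fun h : H => z (h : G) * χ h)
      rw [h5]
      have h6 : ∑ h : H, z (h : G) * χ h = ∑ h : H, z (h : G) * ψ (h : G) :=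
        Finset.sum_congr rfl fun h _ => by rw [hψH]
      rw [h6, ← h4]
      have h7 : ∑ h : H, z (h : G) * ψ (h : G) =
          ∑ x ∈ Finset.univ.filter (fun x : G => x ∈ H), z x * ψ x := by
        rw [Finset.sum_subtype (Finset.univ.filter (fun x : G => x ∈ H)) (p := fun x => x ∈ H)
          (fun x => by simp) (fun x => z x * ψ x)]
      rw [h7, Finset.sum_filter]
      refine Finset.sum_congr rfl fun x _ => ?_
      split_ifs with hx
      · rfl
      · rw [hz2 x hx, zero_mul]
  funext x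
  by_cases hx : x ∈ H
  · have h1 := congrFun key (⟨x, hx⟩⁻¹ : H)
    simpa using h1
  · exact hz2 x hx

end Pool.Agent.GR
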