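import Pool.Agent.helper83.GR.Spec

set_option autoImplicit false

namespace Pool.Agent.GR

open Pool.Agent.helper58.DC Pool.Agent.DI

/-- powers in the group algebra -/
noncomputable def NIL_pw {G : Type} [Group G] (z : G → ℂ) : ℕ → G → ℂ
  | 0 => dl
  | n + 1 => cv (NIL_pw z n) z

theorem NIL (hCVF : CVF_stmt) (hCCI : CCI_stmt) (hEXP : EXP_stmt) (hB2 : B2_stmt) :
    NIL_stmt := by
  classical
  intro p M hS G _ _ L z hz hzi hth hz3
  obtain ⟨hassoc, hbil, hsm, hone, -, hsupp, hcomm, hcf, hcfs, hdl, hint, hinm⟩ := hCVF G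
  let A : (G → ℂ) → Prop := fun u => CF L u ∧ ∀ x, IntAt M (u x)
  let N : (G → ℂ) → Prop := fun u => CF L u ∧ ∀ x, InM M (u x)
  have hNA : ∀ u, N u → A u := fun u hu => ⟨hu.1, fun x => (hu.2 x).intAt⟩
  have hAdd : ∀ u v, N u → N v → N (u + v) := fun u v hu hv =>
    ⟨(hcf L u v hu.1 hv.1).2.1, fun x => (hu.2 x).add hS (hv.2 x)⟩
  have hSub : ∀ u v, N u → N v → N (u - v) := fun u v hu hv =>
    ⟨(hcf L u v hu.1 hv.1).2.2, fun x => (hu.2 x).sub hS (hv.2 x)⟩
  have hASub : ∀ u v, A u → A v → A (u - v) := fun u v hu hv =>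
    ⟨(hcf L u v hu.1 hv.1).2.2, fun x => (hu.2 x).sub hS (hv.2 x)⟩
  have hACv : ∀ u v, A u → A v → A (cv u v) := fun u v hu hv =>
    ⟨(hcf L u v hu.1 hv.1).1, hint p M hS u v hu.2 hv.2⟩
  have hNCv : ∀ u v, A u → N v → N (cv u v) := fun u v hu hv =>
    ⟨(hcf L u v hu.1 hv.1).1, hinm p M hS u v hu.2 hv.2⟩
  have hNCv' : ∀ u v, N u → A v → N (cv u v) := fun u v hu hv => by
    rw [hcomm L u v hu.1 hv.1.2]
    exact hNCv v u hv hu
  have hAdl : A dl := ⟨hdl L, fun x => by
    unfold dl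
    split_ifs
    · exact IntAt.one hS
    · exact IntAt.zero hS⟩
  have hSmI : ∀ (k : ℂ) u, InM M k → A u → N (k • u) := fun k u hk hu =>
    ⟨hcfs L k u hu.1, fun x => InM.mul_right hS hk (hu.2 x)⟩
  have hN0 : N 0 := by
    refine ⟨?_, fun x => InM.zero hS⟩
    exact ⟨fun _ _ _ => rfl, fun _ _ => rfl⟩
  have hAz : A z := ⟨hz, hzi⟩
  have hpwA : ∀ n, A (NIL_pw z n) := by
    intro n
    induction n with
    | zero => exact hAdl
    | succ n ih => exact hACv _ _ ih hAz
  have hT : ∀ T : Finset (G → ℂ), (∀ θ ∈ T, θ ∈ IrrOn L) →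
      ∃ P, A P ∧ (∀ θ ∈ T, cc θ P = 0) ∧ N (P - NIL_pw z T.card) := by
    intro T
    induction T using Finset.induction_on with
    | empty =>
      intro _
      refine ⟨dl, hAdl, by simp, ?_⟩
      rw [Finset.card_empty]
      show N (dl - dl)
      rw [sub_self]
      exact hN0
    | insert θ T hθ ih =>
      intro hT
      obtain ⟨P, hP1, hP2, hP3⟩ := ih (fun θ' h => hT θ' (Finset.mem_insert_of_mem h))
      have hθL := hT θ (Finset.mem_insert_self _ _)
      have hw : A (z - cc θ z • dl) := hASub _ _ hAz (hNA _ (hSmI _ _ (hth θ hθL) hAdl))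
      refine ⟨cv P (z - cc θ z • dl), hACv _ _ hP1 hw, ?_, ?_⟩
      · intro θ' hθ'
        have hθ'L := hT θ' hθ'
        obtain ⟨hl1, hl2, -⟩ := hCCI G L θ' hθ'L
        rw [hl2 P _ hP1.1 hw.1]
        rcases Finset.mem_insert.mp hθ' with h | h
        · subst h
          have h1 : cc θ' (z - cc θ' z • dl) = 0 := by
            rw [(hl1 0 z (cc θ' z • dl)).2.1, (hl1 (cc θ' z) dl dl).2.2.1, (hl1 0 z z).2.2.2]
            ring
          rw [h1, mul_zero]
        · rw [hP2 θ' h, zero_mul]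
      · rw [Finset.card_insert_of_notMem hθ]
        show N (cv P (z - cc θ z • dl) - cv (NIL_pw z T.card) z)
        have e : cv P (z - cc θ z • dl) - cv (NIL_pw z T.card) z =
            cv (P - NIL_pw z T.card) z - cc θ z • P := by
          rw [(hbil P z (cc θ z • dl)).2.2.2, (hsm (cc θ z) P dl).2, (hone P).2,
            (hbil P (NIL_pw z T.card) z).2.2.1]
          abel
        rw [e]
        exact hSub _ _ (hNCv' _ _ hP3 hAz) (hSmI _ _ (hth θ hθL) hP1)
  -- some power is null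
  obtain ⟨hfin, -⟩ := hB2 G L
  obtain ⟨P, hP1, hP2, hP3⟩ := hT hfin.toFinset (fun θ h => (Set.Finite.mem_toFinset hfin).mp h)
  have hP0 : P = 0 := hEXP G L P hP1.1 (fun θ h => hP2 θ ((Set.Finite.mem_toFinset hfin).mpr h))
  obtain ⟨n, hn⟩ : ∃ n, N (NIL_pw z n) := by
    refine ⟨hfin.toFinset.card, ?_⟩
    have h1 := hSub _ _ hN0 hP3
    rw [hP0, zero_sub, zero_sub, neg_neg] at h1
    exact h1
  have hup : ∀ j, N (NIL_pw z (n + j)) := by
    intro j
    induction j with
    | zero => exact hn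
    | succ j ih => exact hNCv' _ _ ih hAz
  -- odd powers
  have hz3' : N (cv (cv z z) z - z) :=
    ⟨(hcf L _ _ (hACv _ _ (hACv _ _ hAz hAz) hAz).1 hz).2.2, hz3⟩
  have hodd : ∀ k, N (NIL_pw z (2 * k + 1) - z) := by
    intro k
    induction k with
    | zero =>
      show N (cv dl z - z)
      rw [(hone z).1, sub_self]
      exact hN0
    | succ k ih =>
      have h1 : N (cv (cv (NIL_pw z (2 * k + 1) - z) z) z) := hNCv' _ _ (hNCv' _ _ ih hAz) hAz
      have h2 := hAdd _ _ h1 hz3'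
      have h3 : cv (cv (NIL_pw z (2 * k + 1) - z) z) z + (cv (cv z z) z - z) =
          NIL_pw z (2 * (k + 1) + 1) - z := by
        show _ = cv (cv (NIL_pw z (2 * k + 1)) z) z - z
        rw [(hbil (NIL_pw z (2 * k + 1)) z z).2.2.1,
          (hbil (cv (NIL_pw z (2 * k + 1)) z) (cv z z) z).2.2.1]
        abel
      rw [h3] at h2
      exact h2
  have h4 : N (NIL_pw z (2 * n + 1)) := by
    have h5 := hup (n + 1)
    have h6 : n + (n + 1) = 2 * n + 1 := by ring
    rw [h6] at h5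
    exact h5
  have h7 := hSub _ _ h4 (hodd n)
  rw [sub_sub_cancel] at h7
  exact h7.2

end Pool.Agent.GR
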